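import Pool.Agent.N990.PT.Stm

/-!
# The Potts model on hierarchical lattices: the pure states
-/

set_option autoImplicit false

open MeasureTheory Filter
open scoped ENNReal Topology
open Pool.Agent.N988.EA

namespace Pool.Agent.N478.PT

open Pool.Agent.N990.PT

noncomputable section

/-- the indicator of the ends `(k, k)` -/
def ff {q : ℕ} (k : Fin q) (τ : Bool → Fin q) : ℝ := if τ = (fun _ => k) then 1 else 0

lemma ff_nonneg {q : ℕ} (k : Fin q) (τ : Bool → Fin q) : 0 ≤ ff k τ := by
  unfold ff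
  split_ifs <;> norm_num

/-- the weight of the middle spin between equal spins -/
lemma mw_ge {q : ℕ} (K : ℝ) (k : Fin q) :
    1 - q * Real.exp (-(2 * K)) ≤ mw K (fun _ => k) k := by
  unfold mw
  simp only [if_true]
  set E : ℝ := Real.exp (2 * K) with hE
  have hE0 : 0 < E := Real.exp_pos _
  have hE1 : Real.exp (K * (1 + 1)) = E := by
    rw [hE]
    congr 1
    ring
  have hEi : Real.exp (-(2 * K)) = E⁻¹ := Real.exp_neg _
  have hD : ∑ a : Fin q, Real.exp (K * ((if a = k then 1 else 0) + if a = k then 1 else 0)) ≤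
      E + q := by
    calc ∑ a : Fin q, Real.exp (K * ((if a = k then 1 else 0) + if a = k then 1 else 0))
        ≤ ∑ a : Fin q, ((if a = k then E else 0) + 1) := by
          apply Finset.sum_le_sum
          intro a _
          split_ifs
          · rw [hE1]
            linarith
          · simp
      _ = E + q := by
          rw [Finset.sum_add_distrib]
          simp
  have hD0 : 0 < ∑ a : Fin q, Real.exp (K * ((if a = k then 1 else 0) + if a = k then 1 else 0)) :=
    Finset.sum_pos (fun a _ => Real.exp_pos _) ⟨k, Finset.mem_univ k⟩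
  rw [hE1, hEi]
  rcases le_total (1 - q * E⁻¹) 0 with h | h
  · exact h.trans (div_nonneg hE0.le hD0.le)
  · rw [le_div_iff₀ hD0]
    have h1 : (1 - q * E⁻¹) * (E + q) = E - (q : ℝ) ^ 2 * E⁻¹ := by
      field_simp
      ring
    have h2 : 0 ≤ (q : ℝ) ^ 2 * E⁻¹ := by positivity
    calc _ ≤ (1 - q * E⁻¹) * (E + q) := mul_le_mul_of_nonneg_left hD h
      _ ≤ E := by rw [h1]; linarith

section
variable {b q : ℕ} (β : ℝ) (p : ℕ → Fin b × Bool)

lemma ends_repl (h2 : S_GEO) (n : ℕ) (ω : VInf p → Fin q) (s : Vert b n → Fin q) :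
    ends p n (repl p n ω s) = ends p n ω := by
  obtain ⟨_, _, hinj, _, hrepl, _⟩ := h2 b q p
  funext t
  unfold ends
  apply (hrepl n ω s).2
  intro x hx
  exact absurd (hinj n hx) Sum.inr_ne_inl

lemma ends_repl_succ (h2 : S_GEO) (n : ℕ) (ω : VInf p → Fin q) (s : Vert b (n + 1) → Fin q) :
    ends p n (repl p (n + 1) ω s) = fun t => if t = (p n).2 then ends p (n + 1) ω t else
      s (Sum.inl (p n).1 : Vert b (n + 1)) := by
  obtain ⟨_, hemb, hinj, _, hrepl, _⟩ := h2 b q p
  funext t
  have h1 : ends p n (repl p (n + 1) ω s) t =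
      repl p (n + 1) ω s (inc p (n + 1) (emb (p n).1 (p n).2 (.inl t))) := by
    unfold ends
    rw [hemb]
  rw [h1]
  by_cases ht : t = (p n).2
  · have h3 : emb (p n).1 (p n).2 (.inl t : Pt b n) = .inl (p n).2 := if_pos ht
    rw [h3, if_pos ht, ht]
    have h4 := congrFun (ends_repl p h2 (n + 1) ω s) (p n).2
    exact h4
  · have h3 : emb (p n).1 (p n).2 (.inl t : Pt b n) =
        .inr (Sum.inl (p n).1 : Vert b (n + 1)) := if_neg ht
    rw [h3, if_neg ht]
    exact (hrepl (n + 1) ω s).1 _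

lemma GG_mono (h5 : S_GWF) {f g : (VInf p → Fin q) → ℝ} (n : ℕ) (ω : VInf p → Fin q)
    (h : ∀ ω, f ω ≤ g ω) : GG β p n f ω ≤ GG β p n g ω := by
  unfold GG
  exact Finset.sum_le_sum fun s _ => mul_le_mul_of_nonneg_left (h _) ((h5 b q β n _).2.1 s)

lemma GG_sub_const (h5 : S_GWF) (n : ℕ) (f : (VInf p → Fin q) → ℝ) (c : ℝ) (ω : VInf p → Fin q) :
    GG β p n (fun ω => f ω - c) ω = GG β p n f ω - c := by
  unfold GG
  simp only [mul_sub, Finset.sum_sub_distrib, ← Finset.sum_mul, (h5 b q β n _).2.2, one_mul]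

lemma step (h2 : S_GEO) (h4 : S_MID) (h5 : S_GWF) (hq : 2 ≤ q) (k : Fin q) (N : ℕ)
    (ω : VInf p → Fin q) :
    ff k (ends p (N + 1) ω) - q * Real.exp (-(2 * Kf b q β N)) ≤
      GG β p (N + 1) (fun ω => ff k (ends p N ω)) ω := by
  have hpos : 0 ≤ q * Real.exp (-(2 * Kf b q β N)) := by positivity
  by_cases hω : ends p (N + 1) ω = fun _ => k
  · have h6 : ∀ s : Vert b (N + 1) → Fin q, ff k (ends p N (repl p (N + 1) ω s)) =
        if s (Sum.inl (p N).1 : Vert b (N + 1)) = k then 1 else 0 := by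
      intro s
      rw [ends_repl_succ p h2, hω]
      unfold ff
      refine if_congr ⟨fun h => ?_, fun h => ?_⟩ rfl rfl
      · have h7 := congrFun h (!(p N).2)
        simpa using h7
      · funext t
        split_ifs
        · rfl
        · exact h
    have h7 := h4 b q hq β N (p N).1 (fun _ => k) (fun c => if c = k then (1 : ℝ) else 0)
    have h8 : GG β p (N + 1) (fun ω => ff k (ends p N ω)) ω = mw (Kf b q β N) (fun _ => k) k := by
      unfold GG
      simp only [h6, hω]
      rw [h7]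
      simp
    have h9 : ff k (ends p (N + 1) ω) = 1 := if_pos hω
    rw [h8, h9]
    exact mw_ge _ _
  · have h6 : ff k (ends p (N + 1) ω) = 0 := if_neg hω
    have h7 : 0 ≤ GG β p (N + 1) (fun ω => ff k (ends p N ω)) ω :=
      Finset.sum_nonneg fun s _ => mul_nonneg ((h5 b q β (N + 1) _).2.1 s) (ff_nonneg _ _)
    rw [h6]
    linarith

lemma chain (h2 : S_GEO) (h3 : S_CNS) (h4 : S_MID) (h5 : S_GWF) (hq : 2 ≤ q) (k : Fin q) (n : ℕ) :
    ∀ N, n ≤ N → ∀ ω : VInf p → Fin q, ff k (ends p N ω) -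
      ∑ m ∈ Finset.Ico n N, q * Real.exp (-(2 * Kf b q β m)) ≤
      GG β p N (fun ω => ff k (ends p n ω)) ω := by
  intro N hN
  induction N, hN using Nat.le_induction with
  | base =>
    intro ω
    have h6 : GG β p n (fun ω => ff k (ends p n ω)) ω = ff k (ends p n ω) := by
      unfold GG
      simp only [ends_repl p h2, ← Finset.sum_mul, (h5 b q β n _).2.2, one_mul]
    rw [h6]
    simp
  | succ N hN ih =>
    intro ω
    rw [← h3 b q β p N _ ω]
    have h6 := GG_mono β p h5 (N + 1) ω ih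
    rw [GG_sub_const β p h5] at h6
    have h7 := step β p h2 h4 h5 hq k N ω
    rw [Finset.sum_Ico_succ_top hN]
    linarith

end

theorem t_pur (h1 : Pool.Agent.N990.PT.S_EXI) (h2 : Pool.Agent.N990.PT.S_GEO)
    (h3 : Pool.Agent.N990.PT.S_CNS) (h4 : Pool.Agent.N990.PT.S_MID)
    (h5 : Pool.Agent.N990.PT.S_GWF) : Pool.Agent.N990.PT.S_PUR := by
  intro b q hq β p ⟨C, hC⟩ k
  obtain ⟨μ, hμ, hμ'⟩ := h1 b q β p k
  have := hμ.prob
  refine ⟨μ, hμ, ?_⟩
  set r : ℝ := Real.exp (-2) with hr
  have hr0 : 0 ≤ r := (Real.exp_pos _).le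
  have hr1 : r < 1 := by
    rw [hr, ← Real.exp_zero]
    exact Real.exp_lt_exp.2 (by norm_num)
  set B : ℝ := q * Real.exp (2 * C) with hB
  have hB0 : 0 ≤ B := by positivity
  have hterm : ∀ m : ℕ, q * Real.exp (-(2 * Kf b q β m)) ≤ B * r ^ m := by
    intro m
    have e1 : B * r ^ m = q * Real.exp (2 * C + m * (-2)) := by
      rw [hB, hr, ← Real.exp_nat_mul, mul_assoc, ← Real.exp_add]
    rw [e1]
    apply mul_le_mul_of_nonneg_left _ (Nat.cast_nonneg q)
    apply Real.exp_le_exp.2
    have := hC m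
    linarith
  have hlow : ∀ n : ℕ, 1 - B * (r ^ n / (1 - r)) ≤ μ.real {ω | ends p n ω = fun _ => k} := by
    intro n
    have h6 : ∫ ω, ff k (ends p n ω) ∂μ = μ.real {ω | ends p n ω = fun _ => k} := by
      have hm : MeasurableSet {ω : VInf p → Fin q | ends p n ω = fun _ => k} := by
        have hme : Measurable (fun ω : VInf p → Fin q => ends p n ω) :=
          measurable_pi_lambda _ fun t => measurable_pi_apply _
        exact hme (measurableSet_singleton _)
      rw [← integral_indicator_one hm]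
      refine integral_congr_ae (ae_of_all _ fun ω => ?_)
      by_cases h : ends p n ω = fun _ => k
      · have e1 : ω ∈ {ω : VInf p → Fin q | ends p n ω = fun _ => k} := h
        rw [Set.indicator_of_mem e1]
        exact if_pos h
      · have e1 : ω ∉ {ω : VInf p → Fin q | ends p n ω = fun _ => k} := h
        rw [Set.indicator_of_notMem e1]
        exact if_neg h
    rw [← h6]
    apply hμ' n (ff k)
    filter_upwards [eventually_ge_atTop n] with N hN
    have h7 := chain β p h2 h3 h4 h5 hq k n N hN (fun _ => k)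
    have h8 : ff k (ends p N (fun _ : VInf p => k)) = 1 := if_pos rfl
    rw [h8] at h7
    refine le_trans ?_ h7
    have h9 : ∑ m ∈ Finset.Ico n N, q * Real.exp (-(2 * Kf b q β m)) ≤ B * (r ^ n / (1 - r)) := by
      calc ∑ m ∈ Finset.Ico n N, q * Real.exp (-(2 * Kf b q β m))
          ≤ ∑ m ∈ Finset.Ico n N, B * r ^ m := Finset.sum_le_sum fun m _ => hterm m
        _ = B * ∑ m ∈ Finset.Ico n N, r ^ m := by rw [Finset.mul_sum]
        _ ≤ B * (r ^ n / (1 - r)) :=
          mul_le_mul_of_nonneg_left (geom_sum_Ico_le_of_lt_one hr0 hr1) hB0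
    linarith
  have hlim : Tendsto (fun n : ℕ => 1 - B * (r ^ n / (1 - r))) atTop (𝓝 1) := by
    have h6 := ((tendsto_pow_atTop_nhds_zero_of_lt_one hr0 hr1).div_const (1 - r)).const_mul B
    have h7 := h6.const_sub 1
    simpa using h7
  exact tendsto_of_tendsto_of_tendsto_of_le_of_le hlim tendsto_const_nhds hlow
    fun n => measureReal_le_one

end

end Pool.Agent.N478.PT
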